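import Pool.Agent.V1198.BLSp

/-!
# Norm attainment of functionals and of their extensions to free `p`-convex Banach lattices

If the extension of `φ`, `‖φ‖ = 1`, attains its norm at `f`, then for a constant `C` and small
functionals `v` one has `∑ t_i (|f (φ + v_i)|^p - 1 - C ‖v_i‖^2) ≤ p ‖∑ t_i v_i‖`, where `f (ψ)` is the
value at `f` of the extension of `ψ`. By separation there is `l` in the unit ball of the bidual with
`p l(v) ≥ |f (φ + v)|^p - 1 - C ‖v‖^2`. As `f` is weak* continuous on bounded sets, `l` belongs to `E`.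
-/

set_option autoImplicit false

noncomputable section

open Filter Topology Pool.Agent.V1198.BL

namespace Pool.Agent.Results.MP_43bafb_an.NormAttain

/-- The coefficients `a` have norm at most one in the dual of `ℓ_p^n`. -/
def DualBall (p : ℝ) {n : ℕ} (a : Fin n → ℝ) : Prop :=
  ∀ t : Fin n → ℝ, ∑ i, a i * t i ≤ (∑ i, |t i| ^ p) ^ (1 / p)

/-- `X` is `p`-convex with constant one. The element `(∑ |x i|^p)^{1/p}` is the supremum of the
combinations `∑ a i • x i` with `a` in the unit ball of the dual of `ℓ_p^n`, and its norm is the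
supremum of the norms of the suprema of finitely many of them. -/
def PConvex (p : ℝ) (X : BLat) : Prop :=
  ∀ (n : ℕ) (x : Fin n → X) (A : Finset (Fin n → ℝ)) (hA : A.Nonempty), (∀ a ∈ A, DualBall p a) →
    ‖A.sup' hA fun a => ∑ i, a i • x i‖ ≤ (∑ i, ‖x i‖ ^ p) ^ (1 / p)

/-- `F`, with the isometric embedding `δ : E → F`, is the free `p`-convex Banach lattice generated
by `E`. -/
structure IsFree (p : ℝ) {E : Type} [NormedAddCommGroup E] [NormedSpace ℝ E] (F : BLat)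
    (δ : E →ₗᵢ[ℝ] F) : Prop where
  pconvex : PConvex p F
  lift : ∀ X : BLat, PConvex p X → ∀ T : E →L[ℝ] X, ∃ S : F →L[ℝ] X,
    (IsLatHom S ∧ (∀ x, S (δ x) = T x) ∧ ‖S‖ = ‖T‖) ∧
      ∀ S' : F →L[ℝ] X, IsLatHom S' → (∀ x, S' (δ x) = T x) → S' = S

/-- The functional `φ` attains its norm. -/
def Attains {Y : Type} [NormedAddCommGroup Y] [NormedSpace ℝ Y] (φ : Y →L[ℝ] ℝ) : Prop :=
  ∃ y, ‖y‖ ≤ 1 ∧ φ y = ‖φ‖

/-! ### The lattice `ℓ_p^ι` -/

/-- The space `ℓ_p^ι`. -/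
def LpN (_p : ℝ) (ι : Type) : Type := ι → ℝ

section LpN

variable {p : ℝ} {ι : Type} [Fintype ι]

instance : AddCommGroup (LpN p ι) := inferInstanceAs (AddCommGroup (ι → ℝ))

instance : Module ℝ (LpN p ι) := inferInstanceAs (Module ℝ (ι → ℝ))

instance : Lattice (LpN p ι) := inferInstanceAs (Lattice (ι → ℝ))

instance : IsOrderedAddMonoid (LpN p ι) := inferInstanceAs (IsOrderedAddMonoid (ι → ℝ))

instance : IsOrderedModule ℝ (LpN p ι) := inferInstanceAs (IsOrderedModule ℝ (ι → ℝ))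

instance : FiniteDimensional ℝ (LpN p ι) := inferInstanceAs (FiniteDimensional ℝ (ι → ℝ))

instance : Norm (LpN p ι) := ⟨fun x => (∑ i, |x i| ^ p) ^ (1 / p)⟩

theorem LpN.norm_def (x : LpN p ι) : ‖x‖ = (∑ i, |x i| ^ p) ^ (1 / p) := rfl

theorem sum_nonneg' (x : ι → ℝ) : 0 ≤ ∑ i, |x i| ^ p :=
  Finset.sum_nonneg fun _ _ => Real.rpow_nonneg (abs_nonneg _) _

variable [hp : Fact (1 ≤ p)]

omit [Fintype ι] in
theorem p_pos : 0 < p := lt_of_lt_of_le one_pos hp.out

theorem eq_zero_of_lp (x : ι → ℝ) (h : (∑ i : ι, |x i| ^ p) ^ (1 / p) = 0) : x = 0 := by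
  have h0 : (0 : ℝ) < p := p_pos
  rw [Real.rpow_eq_zero (sum_nonneg' x) (one_div_pos.mpr h0).ne',
    Finset.sum_eq_zero_iff_of_nonneg fun _ _ => Real.rpow_nonneg (abs_nonneg _) _] at h
  funext i
  have h2 := h i (Finset.mem_univ i)
  rw [Real.rpow_eq_zero (abs_nonneg _) h0.ne'] at h2
  exact abs_eq_zero.mp h2

instance : NormedAddCommGroup (LpN p ι) :=
  AddGroupNorm.toNormedAddCommGroup
    { toFun := fun x => ‖x‖
      map_zero' := by
        have h0 : (0 : ℝ) < p := p_pos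
        show (∑ i : ι, |(0 : ℝ)| ^ p) ^ (1 / p) = 0
        rw [abs_zero, Real.zero_rpow h0.ne', Finset.sum_const_zero,
          Real.zero_rpow (one_div_pos.mpr h0).ne']
      add_le' := fun x y => Real.Lp_add_le Finset.univ x y hp.out
      neg' := fun x => by
        show (∑ i : ι, |(-x i)| ^ p) ^ (1 / p) = (∑ i : ι, |x i| ^ p) ^ (1 / p)
        simp only [abs_neg]
      eq_zero_of_map_eq_zero' := fun x hx => eq_zero_of_lp x hx }

instance : NormedSpace ℝ (LpN p ι) where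
  norm_smul_le c x := by
    have h0 : (0 : ℝ) < p := p_pos
    show (∑ i : ι, |c * x i| ^ p) ^ (1 / p) ≤ |c| * (∑ i : ι, |x i| ^ p) ^ (1 / p)
    simp only [abs_mul, Real.mul_rpow (abs_nonneg _) (abs_nonneg _)]
    rw [← Finset.mul_sum, Real.mul_rpow (Real.rpow_nonneg (abs_nonneg _) _) (sum_nonneg' x),
      ← Real.rpow_mul (abs_nonneg _), mul_one_div_cancel h0.ne', Real.rpow_one]

instance : HasSolidNorm (LpN p ι) where
  solid x y h := by
    have h0 : (0 : ℝ) < p := p_pos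
    have h1 : ∀ i, |x i| ≤ |y i| := h
    exact Real.rpow_le_rpow (sum_nonneg' x) (Finset.sum_le_sum fun i _ =>
      Real.rpow_le_rpow (abs_nonneg _) (h1 i) h0.le) (one_div_pos.mpr h0).le

instance : CompleteSpace (LpN p ι) := FiniteDimensional.complete ℝ _

end LpN

/-- The Banach lattice `ℓ_p^ι`. -/
abbrev lpLat (p : ℝ) [Fact (1 ≤ p)] (ι : Type) [Fintype ι] : BLat := ⟨LpN p ι⟩

theorem abs_sup'_le {p : ℝ} {n : ℕ} {A : Finset (Fin n → ℝ)} (hA : A.Nonempty)
    (h : ∀ a ∈ A, DualBall p a) (t : Fin n → ℝ) :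
    |A.sup' hA fun a => ∑ i, a i * t i| ≤ (∑ i, |t i| ^ p) ^ (1 / p) := by
  rw [abs_le]
  constructor
  · obtain ⟨a, ha⟩ := hA
    refine le_trans ?_ (Finset.le_sup' (fun a : Fin n → ℝ => ∑ i, a i * t i) ha)
    have h1 := h a ha (fun i => -t i)
    simp only [mul_neg, Finset.sum_neg_distrib, abs_neg] at h1
    linarith
  · exact Finset.sup'_le _ _ fun a ha => h a ha t

theorem pconvex_real {p : ℝ} : PConvex p realLat := by
  intro n x A hA h
  show |A.sup' hA fun a => ∑ i, a i * x i| ≤ (∑ i, |x i| ^ p) ^ (1 / p)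
  exact abs_sup'_le hA h x

theorem pconvex_lp {p : ℝ} [hp : Fact (1 ≤ p)] (ι : Type) [Fintype ι] :
    PConvex p (lpLat p ι) := by
  intro n x A hA h
  have h0 : (0 : ℝ) < p := p_pos
  set S : LpN p ι := A.sup' hA fun a => ∑ i, a i • x i with hS
  have h1 : ∀ k, |S k| ≤ (∑ i, |x i k| ^ p) ^ (1 / p) := fun k => by
    have h2 : S k = A.sup' hA fun a => ∑ i, a i * x i k := by
      have h3 : S k = A.sup' hA (fun a => (∑ i, a i • x i : LpN p ι) k) :=
        Finset.sup'_apply hA (fun a : Fin n → ℝ => (∑ i, a i • x i : ι → ℝ)) k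
      rw [h3]
      congr 1
      funext a
      exact Finset.sum_apply k Finset.univ (fun i => (a i • x i : ι → ℝ))
    rw [h2]
    exact abs_sup'_le hA h fun i => x i k
  have h2 : ∑ k, |S k| ^ p ≤ ∑ i, ‖x i‖ ^ p := by
    calc ∑ k, |S k| ^ p ≤ ∑ k, ∑ i, |x i k| ^ p := Finset.sum_le_sum fun k _ => by
          have h3 := Real.rpow_le_rpow (abs_nonneg _) (h1 k) h0.le
          rwa [← Real.rpow_mul (Finset.sum_nonneg fun i _ => Real.rpow_nonneg (abs_nonneg _) _),
            one_div_mul_cancel h0.ne', Real.rpow_one] at h3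
      _ = ∑ i, ∑ k, |x i k| ^ p := Finset.sum_comm
      _ = ∑ i, ‖x i‖ ^ p := Finset.sum_congr rfl fun i _ => by
          have h3 : ‖x i‖ = (∑ k, |x i k| ^ p) ^ (1 / p) := rfl
          rw [h3, ← Real.rpow_mul (sum_nonneg' (x i)), one_div_mul_cancel h0.ne', Real.rpow_one]
  exact Real.rpow_le_rpow (sum_nonneg' S) h2 (one_div_pos.mpr h0).le

/-! ### Extensions of functionals -/

section Ext

variable {p : ℝ} {E : Type} [NormedAddCommGroup E] [NormedSpace ℝ E] {F : BLat}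
  {δ : E →ₗᵢ[ℝ] F}

/-- `Y` is the extension of `y` to a lattice homomorphism. -/
def Extends (δ : E →ₗᵢ[ℝ] F) (y : E →L[ℝ] ℝ) (Y : F →L[ℝ] ℝ) : Prop :=
  (∀ x, Y |x| = |Y x|) ∧ ∀ x, Y (δ x) = y x

theorem IsFree.exists_ext (h : IsFree p F δ) (y : E →L[ℝ] ℝ) :
    ∃ Y : F →L[ℝ] ℝ, Extends δ y Y ∧ ‖Y‖ = ‖y‖ := by
  obtain ⟨S, ⟨h1, h2, h3⟩, -⟩ := h.lift realLat pconvex_real y
  exact ⟨S, ⟨h1, h2⟩, h3⟩

theorem IsFree.unique (h : IsFree p F δ) {y : E →L[ℝ] ℝ} {Y Y' : F →L[ℝ] ℝ}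
    (hY : Extends δ y Y) (hY' : Extends δ y Y') : Y = Y' := by
  obtain ⟨S, -, h4⟩ := h.lift realLat pconvex_real y
  exact (h4 Y hY.1 hY.2).trans (h4 Y' hY'.1 hY'.2).symm

/-- The extension of `y`. -/
def hat (h : IsFree p F δ) (y : E →L[ℝ] ℝ) : F →L[ℝ] ℝ := (h.exists_ext y).choose

theorem hat_spec (h : IsFree p F δ) (y : E →L[ℝ] ℝ) : Extends δ y (hat h y) :=
  (h.exists_ext y).choose_spec.1

theorem norm_hat (h : IsFree p F δ) (y : E →L[ℝ] ℝ) : ‖hat h y‖ = ‖y‖ :=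
  (h.exists_ext y).choose_spec.2

theorem hat_smul (h : IsFree p F δ) (y : E →L[ℝ] ℝ) {c : ℝ} (hc : 0 ≤ c) :
    hat h (c • y) = c • hat h y := by
  refine h.unique (hat_spec h _) ⟨fun x => ?_, fun x => ?_⟩
  · rw [_root_.smul_apply, _root_.smul_apply, (hat_spec h y).1, smul_eq_mul, smul_eq_mul, abs_mul,
      abs_of_nonneg hc]
  · rw [_root_.smul_apply, _root_.smul_apply, (hat_spec h y).2]

/-- The basic inequality. -/
theorem sum_hat_le [hp : Fact (1 ≤ p)] (h : IsFree p F δ) {f : F} (hf : ‖f‖ ≤ 1) {ι : Type}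
    [Fintype ι] (y : ι → E →L[ℝ] ℝ) {c : ℝ} (hc : 0 ≤ c)
    (hy : ∀ x, ‖x‖ ≤ 1 → ∑ i, |y i x| ^ p ≤ c) : ∑ i, |hat h (y i) f| ^ p ≤ c := by
  have h0 : (0 : ℝ) < p := p_pos
  have h01 : 0 < 1 / p := one_div_pos.mpr h0
  have hbound : ∀ x, ∑ i, |y i x| ^ p ≤ c * ‖x‖ ^ p := fun x => by
    by_cases hx : x = 0
    · rw [hx, norm_zero, Real.zero_rpow h0.ne', mul_zero]
      refine (Finset.sum_nonpos fun i _ => ?_)
      rw [map_zero, abs_zero, Real.zero_rpow h0.ne']
    · have hn : 0 < ‖x‖ := norm_pos_iff.mpr hx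
      have h1 := hy (‖x‖⁻¹ • x) (by
        rw [norm_smul, norm_inv, norm_norm, inv_mul_cancel₀ hn.ne'])
      have h2 : ∀ i, |y i (‖x‖⁻¹ • x)| ^ p = (‖x‖ ^ p)⁻¹ * |y i x| ^ p := fun i => by
        rw [map_smul, smul_eq_mul, abs_mul, abs_of_pos (inv_pos.mpr hn),
          Real.mul_rpow (inv_nonneg.mpr hn.le) (abs_nonneg _), Real.inv_rpow hn.le]
      simp only [h2] at h1
      rw [← Finset.mul_sum, inv_mul_le_iff₀ (Real.rpow_pos_of_pos hn p), mul_comm] at h1
      exact h1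
  let T0 : E →ₗ[ℝ] LpN p ι :=
    { toFun := fun x i => y i x
      map_add' := fun a b => funext fun i => map_add (y i) a b
      map_smul' := fun r a => funext fun i => map_smul (y i) r a }
  let T : E →L[ℝ] lpLat p ι := T0.mkContinuous (c ^ (1 / p)) fun x => by
    show (∑ i, |y i x| ^ p) ^ (1 / p) ≤ c ^ (1 / p) * ‖x‖
    have h1 := Real.rpow_le_rpow (sum_nonneg' _) (hbound x) h01.le
    rwa [Real.mul_rpow hc (Real.rpow_nonneg (norm_nonneg _) _), ← Real.rpow_mul (norm_nonneg _),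
      mul_one_div_cancel h0.ne', Real.rpow_one] at h1
  obtain ⟨S, ⟨hS1, hS2, hS3⟩, -⟩ := h.lift (lpLat p ι) (pconvex_lp ι) T
  have hTn : ‖T‖ ≤ c ^ (1 / p) := LinearMap.mkContinuous_norm_le _ (Real.rpow_nonneg hc _) _
  -- the coordinates
  have hcoord : ∀ i, hat h (y i) f = (S f : ι → ℝ) i := fun i => by
    let ev0 : LpN p ι →ₗ[ℝ] ℝ :=
      { toFun := fun x => x i
        map_add' := fun _ _ => rfl
        map_smul' := fun _ _ => rfl }
    let ev : LpN p ι →L[ℝ] ℝ := LinearMap.toContinuousLinearMap ev0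
    have h1 : hat h (y i) = ev.comp S := by
      refine h.unique (hat_spec h _) ⟨fun x => ?_, fun x => ?_⟩
      · show (S |x| : ι → ℝ) i = |(S x : ι → ℝ) i|
        rw [hS1 x]
        rfl
      · show (S (δ x) : ι → ℝ) i = y i x
        rw [hS2 x]
        rfl
    rw [h1]
    rfl
  have h1 : ‖S f‖ ≤ c ^ (1 / p) := by
    refine (S.le_opNorm f).trans ?_
    rw [hS3]
    exact (mul_le_of_le_one_right (norm_nonneg _) hf).trans hTn
  have h2 : (∑ i, |hat h (y i) f| ^ p) ^ (1 / p) ≤ c ^ (1 / p) := by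
    simp only [hcoord]
    exact h1
  exact (Real.rpow_le_rpow_iff (sum_nonneg' _) hc h01).mp h2

end Ext

/-! ### Real inequalities -/

theorem abs_add_rpow_le {p : ℝ} (hp : 1 ≤ p) {a b : ℝ} (ha0 : 0 ≤ a) (ha1 : a ≤ 1)
    (hb : |b| ≤ 1) : |a + b| ^ p ≤ (1 + b) ^ p + (1 - a) := by
  have hb' := abs_le.mp hb
  have h1 : |a + b| ≤ a * (1 + b) + (1 - a) * |b| := by
    have h2 : a + b = a * (1 + b) + (1 - a) * b := by ring
    rw [h2]
    refine (abs_add_le _ _).trans ?_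
    rw [abs_mul, abs_mul, abs_of_nonneg ha0, abs_of_nonneg (show 0 ≤ 1 + b by linarith),
      abs_of_nonneg (show 0 ≤ 1 - a by linarith)]
  have h2 := (convexOn_rpow hp).2 (x := 1 + b) (show 0 ≤ 1 + b by linarith) (y := |b|)
    (abs_nonneg b) ha0 (show 0 ≤ 1 - a by linarith) (by ring)
  simp only [smul_eq_mul] at h2
  have h3 : |a + b| ^ p ≤ (a * (1 + b) + (1 - a) * |b|) ^ p :=
    Real.rpow_le_rpow (abs_nonneg _) h1 (by linarith)
  have h4 : |b| ^ p ≤ 1 := Real.rpow_le_one (abs_nonneg _) hb (by linarith)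
  have h5 : 0 ≤ (1 + b) ^ p := Real.rpow_nonneg (by linarith) _
  nlinarith

theorem exists_const {p : ℝ} (hp : 1 ≤ p) : ∃ C : ℝ, 0 ≤ C ∧ ∀ b : ℝ, |b| ≤ 1 →
    (1 + b) ^ p ≤ 1 + p * b + C * b ^ 2 := by
  have h2p : 0 < (2 : ℝ) ^ p := Real.rpow_pos_of_pos two_pos p
  refine ⟨4 * p ^ 2 * (2 ^ p + p) + 2 * p ^ 2, by positivity, fun b hb => ?_⟩
  have hb' := abs_le.mp hb
  rcases le_total (1 / (2 * p)) |b| with h | h
  · -- `b` is not small
    have h1 : (1 + b) ^ p ≤ 2 ^ p := Real.rpow_le_rpow (by linarith) (by linarith) (by linarith)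
    have h2 : 1 ≤ 4 * p ^ 2 * b ^ 2 := by
      have h3 : 1 ≤ 2 * p * |b| := by
        rw [div_le_iff₀ (by positivity)] at h
        linarith
      have h4 : (2 * p * |b|) ^ 2 = 4 * p ^ 2 * b ^ 2 := by
        rw [mul_pow, mul_pow, sq_abs]; ring
      rw [← h4]
      nlinarith
    have h3 : (2 : ℝ) ^ p + p ≤ 4 * p ^ 2 * (2 ^ p + p) * b ^ 2 := by
      have h4 : 4 * p ^ 2 * (2 ^ p + p) * b ^ 2 = (4 * p ^ 2 * b ^ 2) * (2 ^ p + p) := by ring
      rw [h4]
      nlinarith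
    nlinarith [sq_nonneg (p * b)]
  · -- `b` is small
    have hbs : |b| * (2 * p) ≤ 1 := by
      rw [le_div_iff₀ (by positivity)] at h
      exact h
    have hb2 : -1 < b := by nlinarith [neg_abs_le b]
    have h1b : 0 < 1 + b := by linarith
    have h1 : (1 - p * (b / (1 + b))) ≤ (1 + -(b / (1 + b))) ^ p := by
      have := one_add_mul_self_le_rpow_one_add (s := -(b / (1 + b))) (by
        rw [neg_le_neg_iff, div_le_one h1b]; linarith) hp
      linarith
    have h2 : 1 + -(b / (1 + b)) = (1 + b)⁻¹ := by field_simp; ring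
    rw [h2, Real.inv_rpow h1b.le] at h1
    have hpos : 0 < (1 + b) ^ p := Real.rpow_pos_of_pos h1b p
    have hD : 1 / 2 ≤ 1 - (p - 1) * b := by
      have h3 : (p - 1) * b ≤ (p - 1) * |b| := mul_le_mul_of_nonneg_left (le_abs_self b)
        (by linarith)
      nlinarith [abs_nonneg b]
    -- multiply out
    have h3 : (1 + b) ^ p * (1 - (p - 1) * b) ≤ 1 + b := by
      have h4 : (1 + b) ^ p * (1 - p * (b / (1 + b))) ≤ 1 := by
        have := mul_le_mul_of_nonneg_left h1 hpos.le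
        rwa [mul_inv_cancel₀ hpos.ne'] at this
      have h5 : (1 - p * (b / (1 + b))) * (1 + b) = 1 - (p - 1) * b := by
        field_simp; ring
      calc (1 + b) ^ p * (1 - (p - 1) * b) = ((1 + b) ^ p * (1 - p * (b / (1 + b)))) * (1 + b) := by
            rw [← h5]; ring
        _ ≤ 1 * (1 + b) := mul_le_mul_of_nonneg_right h4 h1b.le
        _ = 1 + b := one_mul _
    have h4 : (1 + p * b + 2 * p ^ 2 * b ^ 2) * (1 - (p - 1) * b) ≥ 1 + b := by
      have h5 : (1 + p * b) * (1 - (p - 1) * b) = 1 + b - p * (p - 1) * b ^ 2 := by ring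
      have h6 : p ^ 2 * b ^ 2 ≤ 2 * p ^ 2 * b ^ 2 * (1 - (p - 1) * b) := by
        nlinarith [sq_nonneg (p * b)]
      have h7 : p * (p - 1) * b ^ 2 ≤ p ^ 2 * b ^ 2 := by nlinarith [sq_nonneg b]
      nlinarith
    have h5 : (1 + b) ^ p ≤ 1 + p * b + 2 * p ^ 2 * b ^ 2 := by
      by_contra hcon
      push Not at hcon
      have : (1 + p * b + 2 * p ^ 2 * b ^ 2) * (1 - (p - 1) * b) <
          (1 + b) ^ p * (1 - (p - 1) * b) := mul_lt_mul_of_pos_right hcon (by linarith)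
      linarith
    have h6 : 0 ≤ 4 * p ^ 2 * (2 ^ p + p) * b ^ 2 := by positivity
    nlinarith

/-! ### The main inequality -/

section Main

variable {p : ℝ} {E : Type} [NormedAddCommGroup E] [NormedSpace ℝ E] {F : BLat}
  {δ : E →ₗᵢ[ℝ] F}

theorem star [hp : Fact (1 ≤ p)] (h : IsFree p F δ) {φ : E →L[ℝ] ℝ} (hφ : ‖φ‖ ≤ 1) {f : F}
    (hf : ‖f‖ ≤ 1) (hφf : |hat h φ f| = 1) {C : ℝ} (hC0 : 0 ≤ C)
    (hC : ∀ b : ℝ, |b| ≤ 1 → (1 + b) ^ p ≤ 1 + p * b + C * b ^ 2) {ι : Type} [Fintype ι]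
    (t : ι → ℝ) (v : ι → E →L[ℝ] ℝ) (ht : ∀ i, 0 ≤ t i) (hv : ∀ i, ‖v i‖ ≤ 1) :
    ∑ i, t i * |hat h (φ + v i) f| ^ p ≤
      ∑ i, t i + p * ‖∑ i, t i • v i‖ + C * ∑ i, t i * ‖v i‖ ^ 2 := by
  have h0 : (0 : ℝ) < p := p_pos
  set τ := ∑ i, t i with hτ
  have hτ0 : 0 ≤ τ := Finset.sum_nonneg fun i _ => ht i
  set s := 1 / (2 * (τ + 1)) with hs
  have hs0 : 0 < s := by positivity
  have hsτ : s * τ ≤ 1 / 2 := by
    rw [hs, one_div, inv_mul_le_iff₀ (by positivity)]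
    linarith
  set R := p * ‖∑ i, t i • v i‖ + C * ∑ i, t i * ‖v i‖ ^ 2 with hR
  have hR0 : 0 ≤ R := by
    have : 0 ≤ ∑ i, t i * ‖v i‖ ^ 2 := Finset.sum_nonneg fun i _ => mul_nonneg (ht i) (sq_nonneg _)
    positivity
  -- the family
  let y : Option ι → E →L[ℝ] ℝ := fun o =>
    match o with
    | none => (1 - s * τ) ^ (1 / p) • φ
    | some i => (s * t i) ^ (1 / p) • (φ + v i)
  have hw : ∀ c : ℝ, 0 ≤ c → ∀ r : ℝ, |c ^ (1 / p) * r| ^ p = c * |r| ^ p := fun c hc r => by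
    rw [abs_mul, abs_of_nonneg (Real.rpow_nonneg hc _),
      Real.mul_rpow (Real.rpow_nonneg hc _) (abs_nonneg _), ← Real.rpow_mul hc,
      one_div_mul_cancel h0.ne', Real.rpow_one]
  have hst : ∀ i, 0 ≤ s * t i := fun i => mul_nonneg hs0.le (ht i)
  -- the estimate for `x` with `φ x ≥ 0`
  have hpos : ∀ x : E, ‖x‖ ≤ 1 → 0 ≤ φ x →
      (1 - s * τ) * |φ x| ^ p + ∑ i, s * t i * |φ x + v i x| ^ p ≤ 1 + s * R := by
    intro x hx hx0
    have ha1 : φ x ≤ 1 :=
      (le_abs_self _).trans ((φ.le_opNorm x).trans (mul_le_one₀ hφ (norm_nonneg _) hx))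
    have hvx : ∀ i, |v i x| ≤ ‖v i‖ := fun i =>
      ((v i).le_opNorm x).trans (mul_le_of_le_one_right (norm_nonneg _) hx)
    have h1 : |φ x| ^ p ≤ φ x := by
      rw [abs_of_nonneg hx0]
      calc (φ x) ^ p ≤ (φ x) ^ (1 : ℝ) := Real.rpow_le_rpow_of_exponent_ge' hx0 ha1 zero_le_one hp.out
        _ = φ x := Real.rpow_one _
    have h2 : ∀ i, |φ x + v i x| ^ p ≤ 1 + p * v i x + C * ‖v i‖ ^ 2 + (1 - φ x) := fun i => by
      have h3 := abs_add_rpow_le hp.out hx0 ha1 ((hvx i).trans (hv i))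
      have h4 := hC (v i x) ((hvx i).trans (hv i))
      have h5 : v i x ^ 2 ≤ ‖v i‖ ^ 2 := by
        rw [← sq_abs (v i x)]
        exact pow_le_pow_left₀ (abs_nonneg _) (hvx i) 2
      nlinarith
    have h3 : ∑ i, s * t i * |φ x + v i x| ^ p ≤
        s * (τ + p * (∑ i, t i • v i) x + C * ∑ i, t i * ‖v i‖ ^ 2 + τ * (1 - φ x)) := by
      calc ∑ i, s * t i * |φ x + v i x| ^ p
          ≤ ∑ i, s * t i * (1 + p * v i x + C * ‖v i‖ ^ 2 + (1 - φ x)) :=
            Finset.sum_le_sum fun i _ => mul_le_mul_of_nonneg_left (h2 i) (hst i)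
        _ = _ := by
            rw [_root_.sum_apply, hτ, Finset.mul_sum, Finset.mul_sum, Finset.sum_mul,
              ← Finset.sum_add_distrib, ← Finset.sum_add_distrib, ← Finset.sum_add_distrib,
              Finset.mul_sum]
            refine Finset.sum_congr rfl fun i _ => ?_
            rw [_root_.smul_apply, smul_eq_mul]
            ring
    have h4 : (∑ i, t i • v i) x ≤ ‖∑ i, t i • v i‖ :=
      (le_abs_self _).trans (((∑ i, t i • v i).le_opNorm x).trans
        (mul_le_of_le_one_right (norm_nonneg _) hx))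
    have h5 : (1 - s * τ) * |φ x| ^ p ≤ (1 - s * τ) * φ x :=
      mul_le_mul_of_nonneg_left h1 (by linarith)
    have h6 : s * (τ + p * (∑ i, t i • v i) x + C * ∑ i, t i * ‖v i‖ ^ 2 + τ * (1 - φ x)) ≤
        s * (τ + R + τ * (1 - φ x)) := by
      refine mul_le_mul_of_nonneg_left ?_ hs0.le
      rw [hR]
      have := mul_le_mul_of_nonneg_left h4 h0.le
      linarith
    have h7 : s * τ * (1 - φ x) ≤ (1 - s * τ) * (1 - φ x) :=
      mul_le_mul_of_nonneg_right (by linarith) (by linarith)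
    nlinarith
  have hfam : ∀ x : E, ‖x‖ ≤ 1 → ∑ o, |y o x| ^ p ≤ 1 + s * R := by
    intro x hx
    rw [Fintype.sum_option]
    have e0 : |y none x| ^ p = (1 - s * τ) * |φ x| ^ p := by
      show |((1 - s * τ) ^ (1 / p) • φ) x| ^ p = _
      rw [_root_.smul_apply, smul_eq_mul, hw _ (by linarith)]
    have e1 : ∀ i, |y (some i) x| ^ p = s * t i * |φ x + v i x| ^ p := fun i => by
      show |((s * t i) ^ (1 / p) • (φ + v i)) x| ^ p = _
      rw [_root_.smul_apply, smul_eq_mul, hw _ (hst i), _root_.add_apply]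
    rw [e0]
    simp only [e1]
    rcases le_total 0 (φ x) with h1 | h1
    · exact hpos x hx h1
    · have h2 := hpos (-x) (by rw [norm_neg]; exact hx) (by rw [map_neg]; linarith)
      have h3 : ∀ i, |φ (-x) + v i (-x)| = |φ x + v i x| := fun i => by
        rw [map_neg, map_neg, ← neg_add, abs_neg]
      simp only [h3] at h2
      rwa [map_neg, abs_neg] at h2
  have hmain := sum_hat_le h hf y (by positivity) hfam
  rw [Fintype.sum_option] at hmain
  have e0 : |hat h (y none) f| ^ p = 1 - s * τ := by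
    show |hat h ((1 - s * τ) ^ (1 / p) • φ) f| ^ p = _
    rw [hat_smul h _ (Real.rpow_nonneg (by linarith) _), _root_.smul_apply, smul_eq_mul,
      hw _ (by linarith), hφf, Real.one_rpow, mul_one]
  have e1 : ∀ i, |hat h (y (some i)) f| ^ p = s * (t i * |hat h (φ + v i) f| ^ p) := fun i => by
    show |hat h ((s * t i) ^ (1 / p) • (φ + v i)) f| ^ p = _
    rw [hat_smul h _ (Real.rpow_nonneg (hst i) _), _root_.smul_apply, smul_eq_mul, hw _ (hst i)]
    ring
  rw [e0] at hmain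
  simp only [e1] at hmain
  rw [← Finset.mul_sum] at hmain
  have h1 : s * ∑ i, t i * |hat h (φ + v i) f| ^ p ≤ s * (τ + R) := by linarith
  have h2 := le_of_mul_le_mul_left h1 hs0
  rw [hR] at h2
  linarith

/-- Separation: a functional on the dual that dominates `g` on the unit ball. -/
theorem exists_dominating {V : Type} [NormedAddCommGroup V] [NormedSpace ℝ V] (g : V → ℝ)
    (hg : ∀ (ι : Type) [Fintype ι] (t : ι → ℝ) (v : ι → V), (∀ i, 0 ≤ t i) → (∀ i, ‖v i‖ ≤ 1) →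
      ∑ i, t i * g (v i) ≤ ‖∑ i, t i • v i‖) :
    ∃ l : V →L[ℝ] ℝ, ‖l‖ ≤ 1 ∧ ∀ v, ‖v‖ ≤ 1 → g v ≤ l v := by
  set A : Set (V × ℝ) := {a | ‖a.1‖ < a.2} with hA
  set B : Set (V × ℝ) := {b | ∃ (ι : Type) (_ : Fintype ι) (t : ι → ℝ) (v : ι → V),
    (∀ i, 0 ≤ t i) ∧ (∀ i, ‖v i‖ ≤ 1) ∧ b = (∑ i, t i • v i, ∑ i, t i * g (v i))} with hB
  have hAo : IsOpen A := isOpen_lt (continuous_fst.norm) continuous_snd
  have hAc : Convex ℝ A := by
    rintro ⟨a1, a2⟩ ha ⟨b1, b2⟩ hb r s hr hs hrs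
    have ha' : ‖a1‖ < a2 := ha
    have hb' : ‖b1‖ < b2 := hb
    show ‖r • a1 + s • b1‖ < r * a2 + s * b2
    have h1 : ‖r • a1 + s • b1‖ ≤ r * ‖a1‖ + s * ‖b1‖ := by
      refine (norm_add_le _ _).trans ?_
      rw [norm_smul, norm_smul, Real.norm_eq_abs, Real.norm_eq_abs, abs_of_nonneg hr,
        abs_of_nonneg hs]
    rcases hr.eq_or_lt with rfl | hr
    · have : s = 1 := by linarith
      subst this
      nlinarith
    · nlinarith
  have hBc : Convex ℝ B := by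
    rintro _ ⟨ι, _, t, v, ht, hv, rfl⟩ _ ⟨κ, _, t', v', ht', hv', rfl⟩ r s hr hs hrs
    refine ⟨ι ⊕ κ, inferInstance, Sum.elim (fun i => r * t i) (fun i => s * t' i),
      Sum.elim v v', ?_, ?_, ?_⟩
    · rintro (i | i)
      · exact mul_nonneg hr (ht i)
      · exact mul_nonneg hs (ht' i)
    · rintro (i | i)
      · exact hv i
      · exact hv' i
    · rw [Fintype.sum_sum_type, Fintype.sum_sum_type]
      simp only [Sum.elim_inl, Sum.elim_inr, Prod.smul_mk, Prod.mk_add_mk, smul_eq_mul]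
      congr 1
      · rw [Finset.smul_sum, Finset.smul_sum]
        simp only [smul_smul]
      · rw [Finset.mul_sum, Finset.mul_sum]
        simp only [mul_assoc]
  have hdisj : Disjoint A B := by
    rw [Set.disjoint_left]
    rintro _ ha ⟨ι, _, t, v, ht, hv, rfl⟩
    have h1 : ‖∑ i, t i • v i‖ < ∑ i, t i * g (v i) := ha
    exact absurd h1 (not_lt.mpr (hg ι t v ht hv))
  obtain ⟨Λ, u, hΛA, hΛB⟩ := geometric_hahn_banach_open hAc hAo hBc hdisj
  have hsingle : ∀ v : V, ‖v‖ ≤ 1 → ∀ r : ℝ, 0 ≤ r → (r • v, r * g v) ∈ B := fun v hv r hr =>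
    ⟨Unit, inferInstance, fun _ => r, fun _ => v, fun _ => hr, fun _ => hv, by simp⟩
  have hu : u ≤ 0 := by
    have h1 := hΛB _ (hsingle 0 (by rw [norm_zero]; exact zero_le_one) 0 le_rfl)
    have h2 : (((0 : ℝ) • (0 : V), (0 : ℝ) * g 0) : V × ℝ) = 0 := by simp
    rwa [h2, map_zero] at h1
  set c := -Λ (0, 1) with hc
  have hc0 : 0 < c := by
    have h1 := hΛA (0, 1) (show ‖(0 : V)‖ < 1 by rw [norm_zero]; exact one_pos)
    rw [hc]; linarith
  have hΛ : ∀ (w : V) (r : ℝ), Λ (w, r) = Λ (w, 0) - c * r := fun w r => by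
    have h1 : ((w, r) : V × ℝ) = (w, 0) + r • ((0 : V), (1 : ℝ)) := by simp
    rw [h1, map_add, map_smul, hc, smul_eq_mul]
    ring
  let l0 : V →L[ℝ] ℝ := c⁻¹ • Λ.comp (ContinuousLinearMap.inl ℝ V ℝ)
  have hl0 : ∀ w, l0 w = c⁻¹ * Λ (w, 0) := fun w => rfl
  refine ⟨l0, ?_, fun v hv => ?_⟩
  · have h1 : ∀ w, l0 w ≤ ‖w‖ := fun w => by
      rw [hl0, inv_mul_le_iff₀ hc0]
      refine le_of_forall_pos_lt_add fun ε hε => ?_
      have h2 := hΛA (w, ‖w‖ + ε / c) (show ‖w‖ < ‖w‖ + ε / c by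
        have : 0 < ε / c := by positivity
        linarith)
      rw [hΛ, mul_add, mul_div_cancel₀ _ hc0.ne'] at h2
      linarith
    refine ContinuousLinearMap.opNorm_le_bound _ zero_le_one fun w => ?_
    rw [one_mul, Real.norm_eq_abs, abs_le]
    have h2 := h1 (-w)
    rw [map_neg, norm_neg] at h2
    exact ⟨by linarith, h1 w⟩
  · rw [hl0, le_inv_mul_iff₀ hc0]
    by_contra hcon
    push Not at hcon
    -- large multiples
    have h1 : Λ (v, g v) < 0 := by rw [hΛ]; linarith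
    obtain ⟨r, hr⟩ := exists_nat_gt (-u / -Λ (v, g v))
    rw [div_lt_iff₀ (by linarith)] at hr
    have h2 := hΛB _ (hsingle v hv r (Nat.cast_nonneg r))
    have h3 : (((r : ℝ) • v, (r : ℝ) * g v) : V × ℝ) = (r : ℝ) • (v, g v) := rfl
    rw [h3, map_smul, smul_eq_mul] at h2
    linarith

/-- The values at `f` of the extensions are weak* continuous on bounded sets. -/
theorem exists_finset (h : IsFree p F δ) (φ : E →L[ℝ] ℝ) (f : F) {s : ℝ} (hs0 : 0 ≤ s)
    (hs1 : s ≤ 1) {ε : ℝ} (hε : 0 < ε) : ∃ Z : Finset E, ∀ v : E →L[ℝ] ℝ, ‖v‖ ≤ 1 →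
      (∀ z ∈ Z, v z = 0) → |hat h (φ + s • v) f - hat h φ f| ≤ ε := by
  by_contra hcon
  push Not at hcon
  choose v hv1 hv2 hv3 using hcon
  set U : Ultrafilter (Finset E) := Ultrafilter.of atTop with hU
  have hUle : (U : Filter (Finset E)) ≤ atTop := Ultrafilter.of_le _
  set M := ‖φ‖ + 1 with hM
  have hM0 : 0 ≤ M := by positivity
  have hnorm : ∀ Z, ‖φ + s • v Z‖ ≤ M := fun Z => by
    refine (norm_add_le _ _).trans (add_le_add le_rfl ?_)
    rw [norm_smul, Real.norm_eq_abs, abs_of_nonneg hs0]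
    exact mul_le_one₀ hs1 (norm_nonneg _) (hv1 Z)
  have hbd : ∀ (g : F) (Z : Finset E), |hat h (φ + s • v Z) g| ≤ M * ‖g‖ := fun g Z => by
    refine ((hat h (φ + s • v Z)).le_opNorm g).trans ?_
    rw [norm_hat]
    exact mul_le_mul_of_nonneg_right (hnorm Z) (norm_nonneg _)
  have hlim : ∀ g : F, ∃ L : ℝ, |L| ≤ M * ‖g‖ ∧
      Tendsto (fun Z => hat h (φ + s • v Z) g) U (𝓝 L) := fun g => by
    have h1 : IsCompact (Set.Icc (-(M * ‖g‖)) (M * ‖g‖)) := isCompact_Icc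
    obtain ⟨L, hL, hL2⟩ := h1.ultrafilter_le_nhds (U.map fun Z => hat h (φ + s • v Z) g) (by
      rw [Ultrafilter.coe_map, Filter.le_principal_iff, Filter.mem_map]
      exact Filter.univ_mem' fun Z => abs_le.mp (hbd g Z))
    exact ⟨L, abs_le.mpr hL, hL2⟩
  choose L hL1 hL2 using hlim
  let L0 : F →ₗ[ℝ] ℝ :=
    { toFun := L
      map_add' := fun a b => by
        refine tendsto_nhds_unique (hL2 (a + b)) ?_
        have := (hL2 a).add (hL2 b)
        refine this.congr fun Z => ?_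
        rw [map_add]
      map_smul' := fun c a => by
        refine tendsto_nhds_unique (hL2 (c • a)) ?_
        have := (hL2 a).const_mul c
        refine this.congr fun Z => ?_
        rw [map_smul, smul_eq_mul] }
  let LL : F →L[ℝ] ℝ := L0.mkContinuous M fun a => hL1 a
  have hLL : Extends δ φ LL := by
    refine ⟨fun x => ?_, fun x => ?_⟩
    · show L |x| = |L x|
      refine tendsto_nhds_unique (hL2 |x|) ?_
      refine (hL2 x).abs.congr fun Z => ?_
      rw [(hat_spec h _).1]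
    · show L (δ x) = φ x
      refine tendsto_nhds_unique (hL2 (δ x)) ?_
      refine tendsto_const_nhds.congr' ?_
      filter_upwards [hUle (eventually_ge_atTop {x})] with Z hZ
      rw [(hat_spec h _).2, _root_.add_apply, _root_.smul_apply,
        hv2 Z x (hZ (Finset.mem_singleton_self x)), smul_zero, add_zero]
  have hLf : L f = hat h φ f := by
    have h1 := h.unique hLL (hat_spec h φ)
    rw [← h1]
    rfl
  have h1 := ((hL2 f).sub_const (hat h φ f)).abs
  rw [hLf, sub_self, abs_zero] at h1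
  obtain ⟨Z, hZ⟩ := (h1.eventually_lt_const hε).exists
  exact absurd (hv3 Z) (not_lt.mpr hZ.le)

/-- A functional on the dual that is weak* continuous on bounded sets is given by an element. -/
theorem exists_eq_eval [CompleteSpace E] (l : (E →L[ℝ] ℝ) →L[ℝ] ℝ) (hl1 : ‖l‖ ≤ 1)
    (hl : ∀ ε : ℝ, 0 < ε → ∃ Z : Finset E, ∀ v : E →L[ℝ] ℝ, (∀ z ∈ Z, v z = 0) →
      |l v| ≤ ε * ‖v‖) : ∃ u : E, ‖u‖ ≤ 1 ∧ ∀ v, l v = v u := by
  have hmem : ∀ ε : ℝ, 0 < ε → ∃ u : E, ∀ v, |l v - v u| ≤ ε * ‖v‖ := by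
    intro ε hε
    obtain ⟨Z, hZ⟩ := hl ε hε
    let K : Submodule ℝ (E →L[ℝ] ℝ) :=
      { carrier := {v | ∀ z ∈ Z, v z = 0}
        add_mem' := fun {a b} ha hb z hz => by
          rw [_root_.add_apply, ha z hz, hb z hz, add_zero]
        zero_mem' := fun z _ => rfl
        smul_mem' := fun c a ha z hz => by rw [_root_.smul_apply, ha z hz, smul_zero] }
    obtain ⟨l', hl'1, hl'2⟩ := exists_extension_norm_eq K (l.comp K.subtypeL)
    have hl'n : ‖l'‖ ≤ ε := by
      rw [hl'2]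
      exact ContinuousLinearMap.opNorm_le_bound _ hε.le fun v => hZ v.1 v.2
    let Lz : Z → (E →L[ℝ] ℝ) →ₗ[ℝ] ℝ := fun z =>
      { toFun := fun v => v z.1
        map_add' := fun _ _ => rfl
        map_smul' := fun _ _ => rfl }
    let D : (E →L[ℝ] ℝ) →ₗ[ℝ] ℝ :=
      { toFun := fun v => l v - l' v
        map_add' := fun a b => by rw [map_add, map_add]; ring
        map_smul' := fun c a => by
          rw [map_smul, map_smul, smul_eq_mul, smul_eq_mul, RingHom.id_apply, smul_eq_mul]; ring }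
    have hspan : D ∈ Submodule.span ℝ (Set.range Lz) := by
      refine mem_span_of_iInf_ker_le_ker fun v hv => ?_
      rw [Submodule.mem_iInf] at hv
      have hvK : v ∈ K := fun z hz => LinearMap.mem_ker.mp (hv ⟨z, hz⟩)
      rw [LinearMap.mem_ker]
      show l v - l' v = 0
      rw [hl'1 ⟨v, hvK⟩]
      exact sub_self _
    obtain ⟨c, hc⟩ := (Submodule.mem_span_range_iff_exists_fun ℝ).mp hspan
    refine ⟨∑ z, c z • z.1, fun v => ?_⟩
    have h2 : (∑ z, c z • Lz z) v = D v := by rw [hc]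
    have h3 : (∑ z, c z • Lz z) v = v (∑ z, c z • z.1) := by
      rw [LinearMap.sum_apply, map_sum]
      refine Finset.sum_congr rfl fun z _ => ?_
      rw [map_smul]
      rfl
    have h4 : l v - v (∑ z, c z • z.1) = l' v := by
      have h5 : v (∑ z, c z • z.1) = l v - l' v := h3.symm.trans h2
      rw [h5]
      ring
    rw [h4]
    exact (l'.le_opNorm v).trans (mul_le_mul_of_nonneg_right hl'n (norm_nonneg _))
  choose w hw using fun n : ℕ => hmem (1 / ((n : ℝ) + 1)) (by positivity)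
  have hdiff : ∀ m n : ℕ, ‖w m - w n‖ ≤ 1 / ((m : ℝ) + 1) + 1 / ((n : ℝ) + 1) := by
    intro m n
    by_cases h0 : w m - w n = 0
    · rw [h0, norm_zero]
      positivity
    · obtain ⟨v, hv, hv2⟩ := exists_dual_vector ℝ (w m - w n) (norm_ne_zero_iff.mpr h0)
      have h1 : v (w m) - v (w n) = ‖w m - w n‖ := by
        rw [← map_sub]
        exact hv2
      have h2 := hw m v
      have h3 := hw n v
      rw [hv, mul_one] at h2 h3
      have h4 := abs_le.mp h2
      have h5 := abs_le.mp h3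
      linarith
  have hcau : CauchySeq w := by
    rw [Metric.cauchySeq_iff']
    intro ε hε
    obtain ⟨N, hN⟩ := exists_nat_one_div_lt (half_pos hε)
    refine ⟨N, fun n hn => ?_⟩
    rw [dist_eq_norm]
    have h2 : (1 : ℝ) / ((n : ℝ) + 1) ≤ 1 / ((N : ℝ) + 1) := by
      refine one_div_le_one_div_of_le (by positivity) ?_
      have : (N : ℝ) ≤ n := by exact_mod_cast hn
      linarith
    have := hdiff n N
    linarith
  obtain ⟨u, hu⟩ := cauchySeq_tendsto_of_complete hcau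
  have hlu : ∀ v, l v = v u := fun v => by
    have h1 : Tendsto (fun n : ℕ => 1 / ((n : ℝ) + 1) * ‖v‖) atTop (𝓝 (0 * ‖v‖)) :=
      tendsto_one_div_add_atTop_nhds_zero_nat.mul_const _
    rw [zero_mul] at h1
    have h2 : Tendsto (fun n : ℕ => |l v - v (w n)|) atTop (𝓝 |l v - v u|) :=
      (((v.continuous.tendsto u).comp hu).const_sub _).abs
    have h3 : |l v - v u| ≤ 0 := le_of_tendsto_of_tendsto' h2 h1 fun n => hw n v
    exact sub_eq_zero.mp (abs_eq_zero.mp (le_antisymm h3 (abs_nonneg _)))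
  refine ⟨u, ?_, hlu⟩
  by_cases h0 : u = 0
  · rw [h0, norm_zero]; exact zero_le_one
  · obtain ⟨v, hv, hv2⟩ := exists_dual_vector ℝ u (norm_ne_zero_iff.mpr h0)
    have h1 : l v = ‖u‖ := (hlu v).trans hv2
    rw [← h1]
    refine (le_abs_self _).trans ((l.le_opNorm v).trans ?_)
    rw [hv, mul_one]
    exact hl1

theorem attains_of_norm_one [CompleteSpace E] [hp : Fact (1 ≤ p)] (h : IsFree p F δ)
    {φ : E →L[ℝ] ℝ} (hφ : ‖φ‖ = 1) {f : F} (hf : ‖f‖ ≤ 1) (hφf : hat h φ f = 1) :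
    ∃ u : E, ‖u‖ ≤ 1 ∧ φ u = 1 := by
  have h0 : (0 : ℝ) < p := p_pos
  obtain ⟨C, hC0, hC⟩ := exists_const hp.out
  set g : (E →L[ℝ] ℝ) → ℝ := fun v => (|hat h (φ + v) f| ^ p - 1 - C * ‖v‖ ^ 2) / p with hg
  obtain ⟨l, hl1, hl2⟩ := exists_dominating g (by
    intro ι _ t v ht hv
    have h1 := star h hφ.le hf (by rw [hφf, abs_one]) hC0 hC t v ht hv
    have h2 : ∑ i, t i * g (v i) = (∑ i, t i * |hat h (φ + v i) f| ^ p - ∑ i, t i -
        C * ∑ i, t i * ‖v i‖ ^ 2) / p := by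
      rw [Finset.mul_sum, ← Finset.sum_sub_distrib, ← Finset.sum_sub_distrib, Finset.sum_div]
      refine Finset.sum_congr rfl fun i _ => ?_
      simp only [hg]
      ring
    rw [h2, div_le_iff₀ h0]
    linarith)
  -- weak* continuity
  have hcont : ∀ ε : ℝ, 0 < ε → ∃ Z : Finset E, ∀ v : E →L[ℝ] ℝ, (∀ z ∈ Z, v z = 0) →
      |l v| ≤ ε * ‖v‖ := by
    intro ε hε
    set s := min 1 (ε * p / (2 * (C + 1))) with hs
    have hs0 : 0 < s := by positivity
    have hs1 : s ≤ 1 := min_le_left _ _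
    have hs2 : C * s ≤ ε * p / 2 := by
      have h1 : s ≤ ε * p / (2 * (C + 1)) := min_le_right _ _
      rw [le_div_iff₀ (by positivity)] at h1
      nlinarith
    have hc : Continuous fun r : ℝ => |r| ^ p :=
      continuous_abs.rpow_const fun _ => Or.inr h0.le
    obtain ⟨η, hη, h1⟩ := Metric.continuous_iff.mp hc 1 (p * s * ε / 2) (by positivity)
    obtain ⟨Z, hZ⟩ := exists_finset h φ f hs0.le hs1 (half_pos hη)
    refine ⟨Z, fun v hv => ?_⟩
    have hunit : ∀ w : E →L[ℝ] ℝ, ‖w‖ ≤ 1 → (∀ z ∈ Z, w z = 0) → -ε ≤ l w := by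
      intro w hw hwZ
      have h2 := hZ w hw hwZ
      rw [hφf] at h2
      have h3 := h1 (hat h (φ + s • w) f) (by rw [Real.dist_eq]; linarith)
      rw [Real.dist_eq] at h3
      simp only [abs_one, Real.one_rpow] at h3
      have h4 := (abs_lt.mp h3).1
      have h5 : ‖s • w‖ ≤ s := by
        rw [norm_smul, Real.norm_eq_abs, abs_of_pos hs0]
        exact mul_le_of_le_one_right hs0.le hw
      have h6 := hl2 (s • w) (h5.trans hs1)
      rw [map_smul, smul_eq_mul] at h6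
      simp only [hg] at h6
      rw [div_le_iff₀ h0] at h6
      have h7 : ‖s • w‖ ^ 2 ≤ s ^ 2 := pow_le_pow_left₀ (norm_nonneg _) h5 2
      have h8 : C * ‖s • w‖ ^ 2 ≤ C * s * s := by nlinarith
      have h9 : C * s * s ≤ ε * p / 2 * s := mul_le_mul_of_nonneg_right hs2 hs0.le
      have h10 : -ε * (s * p) ≤ l w * (s * p) := by nlinarith
      exact le_of_mul_le_mul_right h10 (by positivity)
    by_cases hv0 : v = 0
    · rw [hv0, map_zero, norm_zero, abs_zero, mul_zero]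
    · have hn : 0 < ‖v‖ := norm_pos_iff.mpr hv0
      have hvn : ‖‖v‖⁻¹ • v‖ = 1 := by
        rw [norm_smul, norm_inv, norm_norm, inv_mul_cancel₀ hn.ne']
      have h2 := hunit (‖v‖⁻¹ • v) hvn.le fun z hz => by
        rw [_root_.smul_apply, hv z hz, smul_zero]
      have h3 := hunit (-(‖v‖⁻¹ • v)) (by rw [norm_neg]; exact hvn.le) fun z hz => by
        rw [_root_.neg_apply, _root_.smul_apply, hv z hz, smul_zero, neg_zero]
      rw [map_neg] at h3
      have h4 : l v = ‖v‖ * l (‖v‖⁻¹ • v) := by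
        rw [map_smul, smul_eq_mul, mul_inv_cancel_left₀ hn.ne']
      rw [h4, abs_mul, abs_of_pos hn, mul_comm]
      exact mul_le_mul_of_nonneg_right (abs_le.mpr ⟨h2, by linarith⟩) hn.le
  obtain ⟨u, hu1, hu2⟩ := exists_eq_eval l hl1 hcont
  refine ⟨u, hu1, ?_⟩
  have hle : φ u ≤ 1 := by
    refine (le_abs_self _).trans ((φ.le_opNorm u).trans ?_)
    rw [hφ, one_mul]
    exact hu1
  refine le_antisymm hle ?_
  rw [← hu2]
  -- `l φ ≥ 1 - C s / p`
  have hlow : ∀ s : ℝ, 0 < s → s ≤ 1 → 1 - C * s / p ≤ l φ := by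
    intro s hs0 hs1
    have h5 : ‖s • φ‖ = s := by
      rw [norm_smul, Real.norm_eq_abs, abs_of_pos hs0, hφ, mul_one]
    have h6 := hl2 (s • φ) (h5.trans_le hs1)
    rw [map_smul, smul_eq_mul] at h6
    simp only [hg] at h6
    have h7 : φ + s • φ = (1 + s) • φ := by rw [add_smul, one_smul]
    rw [h7, hat_smul h _ (by linarith), _root_.smul_apply, hφf, smul_eq_mul, mul_one, h5,
      abs_of_pos (by linarith), div_le_iff₀ h0] at h6
    have h8 : 1 + p * s ≤ (1 + s) ^ p := one_add_mul_self_le_rpow_one_add (by linarith) hp.out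
    have h9 : (1 - C * s / p) * (s * p) ≤ l φ * (s * p) := by
      have : (1 - C * s / p) * (s * p) = p * s - C * s ^ 2 := by field_simp
      rw [this]
      nlinarith
    exact le_of_mul_le_mul_right h9 (by positivity)
  have ht : Tendsto (fun s : ℝ => 1 - C * s / p) (𝓝[>] 0) (𝓝 (1 - C * 0 / p)) :=
    (((tendsto_id.mono_left nhdsWithin_le_nhds).const_mul C).div_const p).const_sub 1
  rw [mul_zero, zero_div, sub_zero] at ht
  refine le_of_tendsto ht ?_
  filter_upwards [self_mem_nhdsWithin, nhdsWithin_le_nhds (Iic_mem_nhds (show (0 : ℝ) < 1 by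
    norm_num))] with s h1 h2
  exact hlow s h1 h2

end Main

/-- Let `F` be the free `p`-convex Banach lattice generated by the Banach space `E`, and let the
lattice homomorphism `Φ : F → ℝ` extend the functional `φ` on `E`. Then `φ` attains its norm if and
only if `Φ` attains its norm. -/
theorem result (E : Type) [NormedAddCommGroup E] [NormedSpace ℝ E] [CompleteSpace E] (p : ℝ)
    (hp : 1 ≤ p) (F : BLat) (δ : E →ₗᵢ[ℝ] F) (hF : IsFree p F δ) (φ : E →L[ℝ] ℝ)
    (Φ : F →L[ℝ] ℝ) (hΦ : ∀ x, Φ |x| = |Φ x|) (hΦδ : ∀ x, Φ (δ x) = φ x) :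
    Attains φ ↔ Attains Φ := by
  have : Fact (1 ≤ p) := ⟨hp⟩
  have hΦh : Φ = hat hF φ := hF.unique ⟨hΦ, hΦδ⟩ (hat_spec hF φ)
  have hn : ‖Φ‖ = ‖φ‖ := by rw [hΦh, norm_hat]
  constructor
  · rintro ⟨x, hx, hx2⟩
    exact ⟨δ x, by rw [δ.norm_map]; exact hx, by rw [hΦδ, hx2, hn]⟩
  · rintro ⟨f, hf, hf2⟩
    by_cases hφ : φ = 0
    · exact ⟨0, by rw [norm_zero]; exact zero_le_one, by rw [hφ, map_zero, norm_zero]⟩
    · have hpos : 0 < ‖φ‖ := norm_pos_iff.mpr hφ
      obtain ⟨u, hu, hu2⟩ := attains_of_norm_one hF (φ := ‖φ‖⁻¹ • φ)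
        (by rw [norm_smul, norm_inv, norm_norm, inv_mul_cancel₀ hpos.ne']) hf (by
          rw [hat_smul hF _ (inv_nonneg.mpr hpos.le), _root_.smul_apply, ← hΦh, hf2, hn,
            smul_eq_mul, inv_mul_cancel₀ hpos.ne'])
      refine ⟨u, hu, ?_⟩
      rw [_root_.smul_apply, smul_eq_mul, inv_mul_eq_iff_eq_mul₀ hpos.ne', mul_one] at hu2
      exact hu2

end Pool.Agent.Results.MP_43bafb_an.NormAttain
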